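import Pool.Agent.H92.SF.LUT
import Pool.Agent.H64.SRF.HFA
import Pool.Agent.H72.SF.HFB
import Pool.Agent.H19.SRF.TWM

/-!
# Row FAC of sfu_modules: factors
-/

set_option autoImplicit false

namespace Pool.Agent.H49.SFU

open MvPolynomial
open Pool.Agent.H84.SM (dp cr dt)
open Pool.Agent.H3.SF Pool.Agent.H92.SF

/-- factors of homogeneous elements are homogeneous up to constants -/
theorem hfa {k F : Type} [Field k] [CharZero k] [Field F] [Algebra k F]
    (u : Fin 3 → F) (dd : Fin 3 → Derivation k F F) (n : ℕ) (τ : ℤ) (P N : Q2 F)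
    (hne : P * N ≠ 0) (hT : Tw u dd n τ (P * N)) :
    ∃ (c : F) (w n' : ℕ) (τ1 τ2 : ℤ), c ≠ 0 ∧ w + n' = n ∧ τ1 + τ2 = τ ∧
      Tw u dd w τ1 (cq c * P) ∧ Tw u dd n' τ2 (cq c⁻¹ * N) := by
  have : CharZero F := charZero_of_injective_algebraMap (algebraMap k F).injective
  set φ := optionEquivLeft F (Fin 2)
  obtain ⟨P, rfl⟩ := φ.surjective P
  obtain ⟨N, rfl⟩ := φ.surjective N
  rw [← map_mul] at hT hne
  have hPN : P * N ≠ 0 := by
    intro h0
    rw [h0, map_zero] at hne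
    exact hne rfl
  obtain ⟨h1, h2⟩ := (Pool.Agent.H64.SRF.tw_iff u dd n τ (P * N)).1 hT
  obtain ⟨c, n1, n2, τ1, τ2, hc, hn, hτ, h3, h4, h5, h6⟩ :=
    Pool.Agent.H64.SRF.main (eu u dd) Pool.Agent.H64.SRF.wv
    (w := Pool.Agent.H64.SRF.wt) (by
      intro o
      rcases o with _ | i
      · simp [Pool.Agent.H64.SRF.wt]
      · simp [Pool.Agent.H64.SRF.wt]) hPN h1 h2
  refine ⟨c, n1, n2, τ1, τ2, hc, hn, hτ, ?_, ?_⟩
  · rw [← Pool.Agent.H64.SRF.opt_cq]
    exact (Pool.Agent.H64.SRF.tw_iff u dd n1 τ1 _).2 ⟨h3, h4⟩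
  · rw [← Pool.Agent.H64.SRF.opt_cq]
    exact (Pool.Agent.H64.SRF.tw_iff u dd n2 τ2 _).2 ⟨h5, h6⟩

/-- quotients of homogeneous elements are homogeneous -/
theorem hfb {k F : Type} [Field k] [CharZero k] [Field F] [Algebra k F]
    (u : Fin 3 → F) (dd : Fin 3 → Derivation k F F) (n w : ℕ) (τ τ' : ℤ) (P N : Q2 F)
    (hne : P * N ≠ 0) (hPN : Tw u dd n τ (P * N)) (hP : Tw u dd w τ' P) :
    w ≤ n ∧ Tw u dd (n - w) (τ - τ') N := by
  obtain ⟨c, w1, n', τ1, τ2, hc, hw, hτ, h1, h2⟩ := hfa u dd n τ P N hne hPN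
  have hP0 : P ≠ 0 := left_ne_zero_of_mul hne
  obtain ⟨j, hj⟩ : ∃ j, P.coeff j ≠ 0 := by
    by_contra h
    push Not at h
    exact hP0 (Polynomial.ext fun j => by rw [h j, Polynomial.coeff_zero])
  obtain ⟨a, ha⟩ : ∃ a, (P.coeff j).coeff a ≠ 0 := by
    by_contra h
    push Not at h
    exact hj (MvPolynomial.ext _ _ fun a => by rw [h a, coeff_zero])
  have hcoe : ((cq c * P).coeff j).coeff a = c * (P.coeff j).coeff a := by
    rw [Pool.Agent.H72.SF.coeff_cq, coeff_C_mul]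
  have hcoe0 : ((cq c * P).coeff j).coeff a ≠ 0 := by
    rw [hcoe]
    exact mul_ne_zero hc ha
  have hjw : 3 * j ≤ w := by
    by_contra h
    exact hj ((hP.1 j).2 (not_le.1 h))
  have hjw1 : 3 * j ≤ w1 := by
    by_contra h
    apply hcoe0
    rw [(h1.1 j).2 (not_le.1 h), coeff_zero]
  have hd := ((hP.1 j).1 hjw) ha
  have hd1 := ((h1.1 j).1 hjw1) hcoe0
  have hww : w = w1 := by
    have : w - 3 * j = w1 - 3 * j := hd.symm.trans hd1
    omega
  subst hww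
  have hE1 := hP.2 j a
  have hE2 := h1.2 j a
  rw [hcoe] at hE2
  have hEc : Hm k (eu u dd) (τ1 - τ') c := by
    unfold Hm at *
    rw [Derivation.leibniz, hE1] at hE2
    simp only [smul_eq_mul] at hE2
    have h3 : (P.coeff j).coeff a * (eu u dd) c =
        (P.coeff j).coeff a * (((τ1 - τ' : ℤ) : F) * c) := by
      push_cast at hE2 ⊢
      linear_combination hE2
    exact mul_left_cancel₀ ha h3
  refine ⟨by omega, ?_⟩
  have hN : N = cq c * (cq c⁻¹ * N) := by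
    rw [← mul_assoc, ← map_mul, mul_inv_cancel₀ hc, map_one, one_mul]
  have h4 := Pool.Agent.H72.SF.tw_cq u dd n' τ2 (τ1 - τ') c _ hEc h2
  rw [← hN] at h4
  have e1 : n - w = n' := by omega
  have e2 : τ - τ' = τ1 - τ' + τ2 := by omega
  rw [e1, e2]
  exact h4

theorem pf_FAC : Pool.Agent.H92.SF.T_FAC := by
  intro k F _ _ _ _ _ u dd δ j0 c0 J m G hB n w i τ τP P N hP hPN hne
  have h1 := (Pool.Agent.H19.SRF.pf_TWM k F u dd).2.1 w i τP P hP
  have h2 := hfb u dd n (i * w) τ (i * τP) (P ^ i) N hne hPN h1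
  rw [mul_comm w i]
  exact h2

end Pool.Agent.H49.SFU
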